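import Mathlib

namespace Pool.Agent.H.MP_6980f8_al

open Set Module Submodule

variable {D V : Type*} [DivisionRing D] [AddCommGroup V] [Module D V] [Module.Finite D V]

theorem ext_basis (K : Submodule D V) (d : ℕ) : ∀ (m : ℕ) (v : ℕ → V), m + d = finrank D K →
    (∀ c < m, v c ∈ K) → LinearIndepOn D v (Iio m) → ∃ w : ℕ → V, (∀ c < m, w c = v c) ∧
      LinearIndepOn D w (Iio (finrank D K)) ∧ span D (w '' Iio (finrank D K)) = K := by
  have rk : ∀ (m : ℕ) (v : ℕ → V), LinearIndepOn D v (Iio m) →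
      finrank D (span D (v '' Iio m)) = m := by
    intro m v hv
    rw [image_eq_range, finrank_span_eq_card hv]
    simp
  induction d with
  | zero =>
    intro m v hm h1 h2
    rw [add_zero] at hm
    refine ⟨v, fun _ _ => rfl, hm ▸ h2, ?_⟩
    rw [← hm]
    refine Submodule.eq_of_le_of_finrank_eq (span_le.2 ?_) (by rw [rk m v h2, hm])
    rintro _ ⟨c, hc, rfl⟩
    exact h1 c hc
  | succ d ih =>
    intro m v hm h1 h2
    obtain ⟨x, x1, x2⟩ : ∃ x ∈ K, x ∉ span D (v '' Iio m) := by
      by_contra hc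
      push Not at hc
      have := Submodule.finrank_mono (show K ≤ span D (v '' Iio m) from hc)
      rw [rk m v h2] at this
      omega
    have e : EqOn v (Function.update v m x) (Iio m) := fun c hc =>
      (Function.update_of_ne (ne_of_lt hc) _ _).symm
    obtain ⟨w, w1, w2⟩ := ih (m + 1) (Function.update v m x) (by omega) (fun c hc => by
      rcases Nat.lt_succ_iff_lt_or_eq.1 hc with h | rfl
      · rw [← e h]
        exact h1 c h
      · simpa) (by
      rw [show Iio (m + 1) = insert m (Iio m) by ext; simp [Nat.lt_succ_iff_lt_or_eq, or_comm]]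
      exact (h2.congr e).insert (by rw [← e.image_eq]; simpa))
    exact ⟨w, fun c hc => by rw [w1 c (by omega), ← e hc], w2⟩

/-- Young diagram -/
def S (r : ℕ → ℕ) : Set (ℕ × ℕ) := {q | q.2 < r q.1}

theorem jordan (X : Module.End D V) (hX : IsNilpotent X) (n : ℕ) : ∀ W : Submodule D V,
    finrank D W = n → W.map X ≤ W → ∃ (r : ℕ → ℕ) (b : ℕ × ℕ → V), Antitone r ∧
      LinearIndepOn D b (S r) ∧ span D (b '' S r) = W ∧ (∀ a < r 0, X (b (0, a)) = 0) ∧
      (∀ j, ∀ a < r (j + 1), X (b (j + 1, a)) = b (j, a)) ∧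
      ∀ j, finrank D (W.map (X ^ j)) = r j + finrank D (W.map (X ^ (j + 1))) := by
  induction n using Nat.strong_induction_on with
  | _ n ih =>
  intro W hn hW
  by_cases h0 : W = ⊥
  · refine ⟨fun _ => 0, fun _ => 0, antitone_const, by simp [S], by simp [S, h0], by simp,
      by simp, fun j => by rw [h0, Submodule.map_bot, Submodule.map_bot, zero_add]⟩
  have hlt : finrank D (W.map X) < n := by
    rw [← hn]
    refine Submodule.finrank_lt_finrank_of_lt (lt_of_le_of_ne hW fun e => h0 ?_)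
    obtain ⟨m, hm⟩ := hX
    have : ∀ k : ℕ, W.map (X ^ k) = W := fun k => by
      induction k with
      | zero => simp [Module.End.one_eq_id]
      | succ k ihk => rw [pow_succ, Module.End.mul_eq_comp, map_comp, e, ihk]
    rw [← this m, hm]
    simp
  obtain ⟨r, b, h1, h2, h3, h4, h5, h6⟩ := ih _ hlt (W.map X) rfl (map_mono hW)
  have bW : ∀ q ∈ S r, b q ∈ W.map X := fun q hq => h3 ▸ subset_span ⟨q, hq, rfl⟩
  set K := LinearMap.ker X ⊓ W with hK
  have i0 : LinearIndepOn D (fun a => b (0, a)) (Iio (r 0)) :=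
    (h2.mono (by rintro _ ⟨a, ha, rfl⟩; exact ha)).comp_of_image (f := fun a => (0, a))
      fun a _ c _ e => congrArg Prod.snd e
  have m0 : ∀ c < r 0, b (0, c) ∈ K := fun c hc => ⟨h4 c hc, hW (bW (0, c) hc)⟩
  have le : r 0 ≤ finrank D K := by
    have := Submodule.finrank_mono (show span D ((fun a => b (0, a)) '' Iio (r 0)) ≤ K from
      span_le.2 (by rintro _ ⟨c, hc, rfl⟩; exact m0 c hc))
    rw [image_eq_range, finrank_span_eq_card i0] at this
    simpa using this
  obtain ⟨w, w1, w2, w3⟩ := ext_basis K _ (r 0) _ (Nat.add_sub_cancel' le) m0 i0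
  have pre : ∀ y, ∃ x, y ∈ W.map X → x ∈ W ∧ X x = y := fun y => by
    by_cases hy : y ∈ W.map X
    · obtain ⟨x, x1, x2⟩ := hy
      exact ⟨x, fun _ => ⟨x1, x2⟩⟩
    · exact ⟨0, fun h => absurd h hy⟩
  choose pre hpre using pre
  let r' : ℕ → ℕ := fun j => Nat.casesOn j (finrank D K) r
  let c : ℕ × ℕ → V := fun q => Nat.casesOn q.1 (w q.2)
    fun j => if q.2 < r (j + 1) then b (j + 1, q.2) else pre (b (j, q.2))
  have c1 : ∀ j, ∀ a < r j, X (c (j + 1, a)) = b (j, a) ∧ c (j + 1, a) ∈ W := fun j a ha => by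
    simp only [c]
    split_ifs with k
    · exact ⟨h5 j a k, hW (bW (j + 1, a) k)⟩
    · exact ⟨(hpre _ (bW (j, a) ha)).2, (hpre _ (bW (j, a) ha)).1⟩
  have e : S r' = (fun a => (0, a)) '' Iio (finrank D K) ∪
      (fun q : ℕ × ℕ => (q.1 + 1, q.2)) '' S r := by
    ext ⟨j, a⟩
    cases j <;> simp [S, r']
  have e1 : c '' ((fun a => (0, a)) '' Iio (finrank D K)) = w '' Iio (finrank D K) :=
    image_image _ _ _
  have i1 : LinearIndepOn D (X ∘ c) ((fun q : ℕ × ℕ => (q.1 + 1, q.2)) '' S r) :=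
    LinearIndepOn.image_of_comp _ _ (h2.congr fun q hq => (c1 q.1 q.2 hq).1.symm)
  refine ⟨r', c, antitone_nat_of_succ_le fun j => ?_, ?_, ?_, fun a ha => ?_, fun j a ha => ?_,
    fun j => ?_⟩
  · cases j with
    | zero => exact le
    | succ j => exact h1 (Nat.le_succ j)
  · rw [e]
    refine (LinearIndepOn.image_of_comp (fun a => (0, a)) c w2).union i1.of_comp ?_
    rw [e1, w3]
    have := (Submodule.range_ker_disjoint (f := X) i1).symm
    rw [← image_eq_range] at this
    exact this.mono_left inf_le_left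
  · rw [e, image_union, span_union, e1, w3]
    apply le_antisymm
    · refine sup_le inf_le_right (span_le.2 ?_)
      rintro _ ⟨_, ⟨q, hq, rfl⟩, rfl⟩
      exact (c1 q.1 q.2 hq).2
    · intro x hx
      have a1 : X x ∈ (span D (c '' ((fun q : ℕ × ℕ => (q.1 + 1, q.2)) '' S r))).map X := by
        rw [map_span, image_image, image_image,
          image_congr (g := b) (s := S r) fun q hq => (c1 q.1 q.2 hq).1, h3]
        exact mem_map_of_mem hx
      obtain ⟨y, y1, y2⟩ := a1
      have y3 : y ∈ W := (span_le.2 (by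
        rintro _ ⟨_, ⟨q, hq, rfl⟩, rfl⟩
        exact (c1 q.1 q.2 hq).2) : _ ≤ W) y1
      rw [← sub_add_cancel x y]
      exact add_mem_sup ⟨by simp [y2], sub_mem hx y3⟩ y1
  · have : w a ∈ K := w3 ▸ subset_span ⟨a, ha, rfl⟩
    exact this.1
  · rw [(c1 j a ha).1]
    cases j with
    | zero => exact (w1 a ha).symm
    | succ j => exact (if_pos ha).symm
  · cases j with
    | zero =>
      have := LinearMap.finrank_range_add_finrank_ker (X.domRestrict W)
      rw [LinearMap.range_domRestrict, LinearMap.ker_domRestrict,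
        ← Submodule.finrank_map_subtype_eq W, map_comap_subtype, inf_comm] at this
      rw [pow_zero, Module.End.one_eq_id, map_id, zero_add, pow_one, ← this, add_comm]
      rfl
    | succ j =>
      have := h6 j
      rwa [← map_comp, ← map_comp, ← Module.End.mul_eq_comp, ← Module.End.mul_eq_comp,
        ← pow_succ, ← pow_succ] at this

/-- Jordan basis -/
structure JB (X : Module.End D V) (r : ℕ → ℕ) (B : Basis (S r) D V) : Prop where
  anti : Antitone r
  z : ∀ a h, X (B ⟨(0, a), h⟩) = 0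
  s : ∀ j a h h', X (B ⟨(j + 1, a), h⟩) = B ⟨(j, a), h'⟩
  rk : ∀ j, finrank D (LinearMap.range (X ^ j)) = r j + finrank D (LinearMap.range (X ^ (j + 1)))

theorem exists_JB (X : Module.End D V) (hX : IsNilpotent X) : ∃ r B, JB X r B := by
  obtain ⟨r, b, h1, h2, h3, h4, h5, h6⟩ := jordan X hX _ ⊤ rfl le_top
  refine ⟨r, Basis.mk h2 (by rw [← h3, image_eq_range]), h1, fun a h => ?_, fun j a h h' => ?_,
    fun j => by rw [← Submodule.map_top, ← Submodule.map_top]; exact h6 j⟩
  · simpa using h4 a h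
  · simpa using h5 j a h

theorem JB.conj {X Y : Module.End D V} {r : ℕ → ℕ} {B B' : Basis (S r) D V} (h : JB X r B)
    (h' : JB Y r B') : ∃ g : Module.End D V, IsUnit g ∧ g * X = Y * g := by
  refine ⟨B.equiv B' (Equiv.refl _), (Module.End.isUnit_iff _).2 (LinearEquiv.bijective _),
    B.ext fun ⟨⟨j, a⟩, hq⟩ => ?_⟩
  cases j with
  | zero => simp [h.z, h'.z]
  | succ j =>
    have k : (j, a) ∈ S r := lt_of_lt_of_le hq (h.anti (Nat.le_succ j))
    simp [h.s j a hq k, h'.s j a hq k]

theorem exists_J (i : D) (hi : i * i = -1) (X : Module.End D V) (hX : IsNilpotent X) :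
    ∃ J : Module.End D V, J * J = -1 ∧ J * X = X * J := by
  obtain ⟨r, B, h⟩ := exists_JB X hX
  refine ⟨B.constr ℕ fun q => i • B q, B.ext fun q => by simp [smul_smul, hi],
    B.ext fun ⟨⟨j, a⟩, hq⟩ => ?_⟩
  cases j with
  | zero => simp [h.z]
  | succ j =>
    have k : (j, a) ∈ S r := lt_of_lt_of_le hq (h.anti (Nat.le_succ j))
    simp [h.s j a hq k]

theorem JB.pow {X : Module.End D V} {r : ℕ → ℕ} {B : Basis (S r) D V} (h : JB X r B) (q : ℕ) :
    ∀ j a hq, (j < q → (X ^ q) (B ⟨(j, a), hq⟩) = 0) ∧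
      ∀ j' hq', j' + q = j → (X ^ q) (B ⟨(j, a), hq⟩) = B ⟨(j', a), hq'⟩ := by
  induction q with
  | zero => exact fun j a hq => ⟨by omega, fun j' hq' e => by subst e; simp⟩
  | succ q ih =>
    intro j a hq
    rw [pow_succ, Module.End.mul_apply]
    cases j with
    | zero => exact ⟨fun _ => by simp [h.z], by omega⟩
    | succ j =>
      have k : (j, a) ∈ S r := lt_of_lt_of_le hq (h.anti (Nat.le_succ j))
      rw [h.s j a hq k]
      exact ⟨fun l => (ih j a k).1 (by omega), fun j' hq' e => (ih j a k).2 j' hq' (by omega)⟩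

theorem JB.coord {X : Module.End D V} {r : ℕ → ℕ} {B : Basis (S r) D V} (h : JB X r B)
    (q j a c : ℕ) (hq hc) :
    B.coord ⟨(0, c), hc⟩ ((X ^ q) (B ⟨(j, a), hq⟩)) = if j = q ∧ a = c then 1 else 0 := by
  classical
  rcases lt_or_ge j q with k | k
  · rw [(h.pow q j a hq).1 k, map_zero, if_neg (by omega)]
  · have k' : (j - q, a) ∈ S r := lt_of_lt_of_le hq (h.anti (Nat.sub_le j q))
    rw [(h.pow q j a hq).2 (j - q) k' (by omega), Basis.coord_apply, Basis.repr_self,
      Finsupp.single_apply]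
    refine if_congr ?_ rfl rfl
    simp only [Subtype.mk.injEq, Prod.mk.injEq]
    omega

theorem canon_unique {r s : ℕ → ℕ} (hr : Antitone r) (hs : Antitone s) {p : ℕ} (hp : 0 < p)
    (h1 : ∀ a, r (a * p) ≤ r (a * p + (p - 1)) + 1) (h2 : ∀ a, s (a * p) ≤ s (a * p + (p - 1)) + 1)
    (h : ∀ a, ∑ i ∈ Finset.range p, r (a * p + i) = ∑ i ∈ Finset.range p, s (a * p + i)) :
    r = s := by
  have key : ∀ r s : ℕ → ℕ, Antitone r → Antitone s →
      (∀ a, r (a * p) ≤ r (a * p + (p - 1)) + 1) → (∀ a, s (a * p) ≤ s (a * p + (p - 1)) + 1) →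
      (∀ a, ∑ i ∈ Finset.range p, r (a * p + i) = ∑ i ∈ Finset.range p, s (a * p + i)) →
      ∀ j, s j ≤ r j := by
    intro r s hr hs h1 h2 h j
    by_contra hc
    have e := Nat.div_add_mod' j p
    have l := Nat.mod_lt j hp
    set a := j / p
    rw [← e] at hc
    refine absurd (h a) (Finset.sum_lt_sum (fun i hi => ?_)
      ⟨j % p, Finset.mem_range.2 l, not_le.1 hc⟩).ne
    have hi := Finset.mem_range.1 hi
    have a1 := h1 a
    have a2 := h2 a
    rcases le_total i (j % p) with k | k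
    · have b1 : r (a * p + i) ≤ r (a * p) := hr (by omega)
      have b2 : r (a * p + (p - 1)) ≤ r (a * p + j % p) := hr (by omega)
      have b3 : s (a * p + j % p) ≤ s (a * p + i) := hs (by omega)
      omega
    · have b1 : r (a * p + i) ≤ r (a * p + j % p) := hr (by omega)
      have b2 : s (a * p + j % p) ≤ s (a * p) := hs (by omega)
      have b3 : s (a * p + (p - 1)) ≤ s (a * p + i) := hs (by omega)
      omega
  exact funext fun j => le_antisymm (key s r hs hr h2 h1 (fun a => (h a).symm) j)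
    (key r s hr hs h1 h2 h j)

theorem JB.sum {X : Module.End D V} {r : ℕ → ℕ} {B : Basis (S r) D V} (h : JB X r B) (j m : ℕ) :
    finrank D (LinearMap.range (X ^ j)) =
      ∑ i ∈ Finset.range m, r (j + i) + finrank D (LinearMap.range (X ^ (j + m))) := by
  induction m with
  | zero => simp
  | succ m ih => rw [ih, Finset.sum_range_succ, h.rk (j + m), add_assoc, add_assoc]

end Pool.Agent.H.MP_6980f8_al
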