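import Pool.Agent.H.MP_6980f8_al.A

namespace Pool.Agent.H.MP_6980f8_al

open Set Module Submodule

variable {D V : Type*} [DivisionRing D] [AddCommGroup V] [Module D V] [Module.Finite D V]

omit [Module.Finite D V] in
theorem ext2 {P Q : Submodule D V} (h : IsCompl P Q) {f g : Module.End D V}
    (h1 : ∀ x ∈ P, f x = g x) (h2 : ∀ x ∈ Q, f x = g x) : f = g := by
  ext x
  rw [← projection_add_projection_eq_self h x, map_add, map_add,
    h1 _ (projection_apply_mem h x), h2 _ (projection_apply_mem h.symm x)]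

theorem fitting (i : D) (hi : i * i = -1) {A N : Module.End D V} (hA : IsNilpotent A)
    (hc : Commute N A) (hN : ¬ IsUnit N) : ∃ e J : Module.End D V, e * e = e ∧
      (∀ T, Commute N T → Commute e T) ∧ IsNilpotent (N * e) ∧ J * J = -e ∧ e * J = J ∧
      J * e = J ∧ J * A = A * J ∧ ∃ v, v ≠ 0 ∧ N v = 0 ∧ e v = v := by
  obtain ⟨m, hm, h⟩ := ((Filter.eventually_ge_atTop 1).and
    N.eventually_isCompl_ker_pow_range_pow).exists
  set P := LinearMap.ker (N ^ m) with hP
  set Q := LinearMap.range (N ^ m) with hQ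
  have inv1 : ∀ T, Commute N T → ∀ x ∈ P, T x ∈ P := fun T hT x hx => by
    rw [hP, LinearMap.mem_ker] at hx ⊢
    rw [← Module.End.mul_apply, (hT.pow_left m).eq, Module.End.mul_apply, hx, map_zero]
  have inv2 : ∀ T, Commute N T → ∀ x ∈ Q, T x ∈ Q := by
    rintro T hT _ ⟨y, rfl⟩
    exact ⟨T y, by rw [← Module.End.mul_apply, (hT.pow_left m).eq, Module.End.mul_apply]⟩
  have e1 : ∀ x ∈ P, P.projection Q h x = x := fun x hx => projection_apply_of_mem_left h hx
  have e2 : ∀ x ∈ Q, P.projection Q h x = 0 := fun x hx => projection_apply_of_mem_right h hx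
  have cm : ∀ T, Commute N T → Commute (P.projection Q h : Module.End D V) T := fun T hT =>
    ext2 h (fun x hx => by simp only [Module.End.mul_apply, e1 x hx, e1 _ (inv1 T hT x hx)])
      (fun x hx => by simp only [Module.End.mul_apply, e2 x hx, e2 _ (inv2 T hT x hx), map_zero])
  have id : (P.projection Q h : Module.End D V) * P.projection Q h = P.projection Q h :=
    ext2 h (fun x hx => by simp only [Module.End.mul_apply, e1 x hx])
      (fun x hx => by simp only [Module.End.mul_apply, e2 x hx, map_zero])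
  obtain ⟨J, j1, j2⟩ := exists_J i hi (A.restrict (inv1 A hc)) (Module.End.isNilpotent.restrict _ hA)
  set J' : Module.End D V := P.subtype ∘ₗ J ∘ₗ P.projectionOnto Q h with hJ
  have k1 : ∀ x (hx : x ∈ P), J' x = J ⟨x, hx⟩ := fun x hx => by
    simp [hJ, projectionOnto_apply_of_mem_left h hx]
  have k2 : ∀ x ∈ Q, J' x = 0 := fun x hx => by
    simp [hJ, projectionOnto_apply_of_mem_right h hx]
  refine ⟨P.projection Q h, J', id, cm, ⟨m, ?_⟩, ?_, ?_, ?_, ?_, ?_⟩
  · rw [(cm N (Commute.refl N)).symm.mul_pow]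
    obtain ⟨m, rfl⟩ : ∃ k, m = k + 1 := ⟨m - 1, by omega⟩
    rw [IsIdempotentElem.pow_succ_eq m id]
    ext x
    exact projection_apply_mem h x
  · refine ext2 h (fun x hx => ?_) fun x hx => ?_
    · rw [Module.End.mul_apply, k1 x hx, k1 _ (J ⟨x, hx⟩).2, Subtype.coe_eta,
        ← Module.End.mul_apply, j1]
      simp [e1 x hx]
    · simp [k2 x hx, e2 x hx]
  · ext x
    exact e1 _ (J _).2
  · exact ext2 h (fun x hx => by simp only [Module.End.mul_apply, e1 x hx])
      (fun x hx => by simp only [Module.End.mul_apply, e2 x hx, k2 x hx, map_zero])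
  · refine ext2 h (fun x hx => ?_) fun x hx => ?_
    · rw [Module.End.mul_apply, Module.End.mul_apply, k1 x hx, k1 _ (inv1 A hc x hx)]
      exact congrArg Subtype.val (LinearMap.congr_fun j2 ⟨x, hx⟩)
    · simp [k2 x hx, k2 _ (inv2 A hc x hx)]
  · rw [LinearMap.isUnit_iff_ker_eq_bot] at hN
    obtain ⟨v, v1, v2⟩ := (Submodule.ne_bot_iff _).1 hN
    refine ⟨v, v2, v1, e1 v ?_⟩
    obtain ⟨m, rfl⟩ : ∃ k, m = k + 1 := ⟨m - 1, by omega⟩
    rw [hP, LinearMap.mem_ker, pow_succ, Module.End.mul_apply, LinearMap.mem_ker.1 v1, map_zero]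

theorem line {R : Type*} [AddCommGroup R] [Module ℝ R] [TopologicalSpace R]
    [IsTopologicalAddGroup R] [ContinuousSMul ℝ R] {F : Set R} {x y : R}
    (h : ∀ t ∈ Icc (0 : ℝ) 1, x + t • (y - x) ∈ F) : JoinedIn F x y :=
  JoinedIn.ofLine (f := fun t : ℝ => x + t • (y - x)) (by fun_prop) (by simp) (by simp)
    (image_subset_iff.2 h)

variable [Algebra ℝ D] [Module ℝ V] [IsScalarTower ℝ D V] [SMulCommClass D ℝ V]
  [TopologicalSpace (Module.End D V)] [IsTopologicalRing (Module.End D V)]
  [ContinuousSMul ℝ (Module.End D V)]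

theorem conn_units (i : D) (hi : i * i = -1) {A : Module.End D V} (hA : IsNilpotent A)
    (n : ℕ) : ∀ g : Module.End D V, finrank D V - finrank D (LinearMap.ker (g - 1)) = n →
      IsUnit g → Commute g A → JoinedIn {h | IsUnit h ∧ Commute h A} g 1 := by
  induction n using Nat.strong_induction_on with
  | _ n ih =>
  intro g hn hu hc
  by_cases h : ∀ l : ℝ, l < 0 → IsUnit (g - l • 1)
  · refine line fun t ht => ⟨?_, hc.add_left (((Commute.one_left A).sub_left hc).smul_left t)⟩
    rcases ht.1.eq_or_lt with rfl | t0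
    · simpa
    rcases ht.2.eq_or_lt with rfl | t1
    · simp
    have t2 : 0 < 1 - t := by linarith
    have : g + t • (1 - g) = (1 - t) • (g - (-(t / (1 - t))) • 1) := by
      match_scalars
      · ring
      · field_simp
    rw [this]
    exact (h _ (by have := div_pos t0 t2; linarith)).smul (Units.mk0 _ t2.ne')
  push Not at h
  obtain ⟨l, l0, hl⟩ := h
  have c0 : ∀ T, Commute g T → Commute (g - l • 1) T := fun T hT =>
    hT.sub_left ((Commute.one_left T).smul_left l)
  obtain ⟨e, J, e1, e2, e3, j1, j2, j3, j4, v, v0, v1, v2⟩ := fitting i hi hA (c0 A hc) hl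
  obtain ⟨u, rfl⟩ := hu
  have eg : Commute e u := e2 _ (c0 _ (Commute.refl _))
  have ei : Commute e ↑u⁻¹ := eg.units_inv_right
  have ef : e * (1 - e) = 0 := by rw [mul_sub, mul_one, e1, sub_self]
  have fe : (1 - e) * e = 0 := by rw [sub_mul, one_mul, e1, sub_self]
  have p1 : e * (↑u⁻¹ * (1 - e)) = 0 := by rw [← mul_assoc, ei.eq, mul_assoc, ef, mul_zero]
  have p2 : J * (↑u⁻¹ * (1 - e)) = 0 := by rw [← j3, mul_assoc, p1, mul_zero]
  have p3 : ↑u * (1 - e) * e = 0 := by rw [mul_assoc, fe, mul_zero]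
  have p4 : ↑u * (1 - e) * J = 0 := by rw [← j2, ← mul_assoc, p3, zero_mul]
  have p5 : ↑u * (1 - e) * (↑u⁻¹ * (1 - e)) = 1 - e := by
    rw [mul_assoc, sub_mul, one_mul, p1, sub_zero, Units.mul_inv_cancel_left]
  have p6 : e * (↑u * (1 - e)) = 0 := by rw [← mul_assoc, eg.eq, mul_assoc, ef, mul_zero]
  set h := ↑u * (1 - e) with hh
  have cA : Commute e A := e2 A (c0 A hc)
  have un : ∀ a b : ℝ, a ^ 2 + b ^ 2 ≠ 0 → a • e + b • J + h ∈ {h | IsUnit h ∧ Commute h A} := by
    intro a b hab
    refine ⟨IsUnit.of_mul_eq_one ((a / (a ^ 2 + b ^ 2)) • e - (b / (a ^ 2 + b ^ 2)) • J +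
      ↑u⁻¹ * (1 - e)) ?_, ((cA.smul_left a).add_left (Commute.smul_left j4 b)).add_left
      (hc.mul_left ((Commute.one_left A).sub_left cA))⟩
    simp only [mul_add, add_mul, mul_sub _ (_ • e), smul_mul_assoc, mul_smul_comm, e1, j1, j2, j3,
      p1, p2, p3, p4, p5]
    match_scalars <;> field_simp <;> ring
  have s1 : JoinedIn {h | IsUnit h ∧ Commute h A} ↑u (l • e + h) := by
    refine line fun t _ => ⟨?_, ?_⟩
    · have : ↑u + t • (l • e + h - ↑u) = l • e + (0 : ℝ) • J + h + (1 - t) • ((↑u - l • 1) * e) := by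
        simp only [hh, mul_sub, sub_mul, smul_mul_assoc, one_mul, mul_one]
        module
      rw [this]
      refine IsNilpotent.isUnit_add_left_of_commute (e3.smul _) (un l 0 (by simpa using l0.ne)).1
        (Commute.smul_left ?_ _)
      rw [zero_smul, add_zero]
      refine Commute.mul_left (Commute.add_right ((e2 _ (Commute.refl _)).symm.smul_right l)
        (c0 _ ((Commute.refl _).mul_right ((Commute.one_right _).sub_right eg.symm))))
        (Commute.add_right ((Commute.refl e).smul_right l) (p6.trans p3.symm))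
    · have := (un l 0 (by simpa using l0.ne)).2
      rw [zero_smul, add_zero] at this
      exact hc.add_left ((this.sub_left hc).smul_left t)
  have s2 : JoinedIn {h | IsUnit h ∧ Commute h A} (l • e + h) (J + h) := by
    refine line fun t ht => ?_
    have := un ((1 - t) * l) t (by
      rcases ht.1.eq_or_lt with rfl | t0
      · simpa using l0.ne
      · positivity)
    convert this using 1
    module
  have s3 : JoinedIn {h | IsUnit h ∧ Commute h A} (J + h) (e + h) := by
    refine line fun t _ => ?_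
    have := un t (1 - t) (by nlinarith [sq_nonneg (2 * t - 1)])
    convert this using 1
    module
  refine ((s1.trans s2).trans s3).trans (ih _ ?_ _ rfl s3.target_mem.1 s3.target_mem.2)
  have lt : LinearMap.ker (↑u - 1 : Module.End D V) < LinearMap.ker (e + h - 1) := by
    have q : e + h - 1 = (1 - e) * (↑u - 1) := by
      rw [hh, mul_sub (1 - e), ((Commute.one_left _).sub_left eg).eq]
      noncomm_ring
    refine lt_of_le_of_ne (fun x hx => ?_) fun q' => v0 ?_
    · rw [LinearMap.mem_ker] at hx ⊢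
      rw [q, Module.End.mul_apply, hx, map_zero]
    · have a : v ∈ LinearMap.ker (e + h - 1) := by simp [hh, v2]
      rw [← q'] at a
      have a1 : (u : Module.End D V) v = v := by simpa [sub_eq_zero] using a
      have a2 : (1 - l) • v = 0 := by
        simpa [a1, sub_smul] using v1
      have a3 : (1 - l) ≠ 0 := by linarith
      rw [← one_smul ℝ v, ← inv_mul_cancel₀ a3, mul_smul, a2, smul_zero]
  have := Submodule.finrank_lt_finrank_of_lt lt
  have := Submodule.finrank_le (LinearMap.ker (e + h - 1))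
  omega

theorem move_ring {R : Type*} [Ring R] [Algebra ℝ R] [TopologicalSpace R] [IsTopologicalRing R]
    [ContinuousSMul ℝ R] {X Θ : R} {p a k l : ℕ} (hp : 0 < p) (h1 : a * p < l)
    (h2 : k < (a + 1) * p) (t1 : Θ * X ^ l = 0) (t2 : X ^ k * Θ = 0)
    (t3 : ∀ j, Θ * X ^ j * Θ = 0) : (∀ j, (X + Θ * X ^ (l - 1)) ^ (j + 1) =
      X ^ (j + 1) + X ^ j * (Θ * X ^ (l - 1))) ∧ ∃ φ ψ : R, φ * ψ = 1 ∧ ψ * φ = 1 ∧
      JoinedIn {Y | Y ^ p = X ^ p} X (φ * (X + Θ * X ^ (l - 1)) * ψ) := by
  obtain ⟨l, rfl⟩ : ∃ m, l = m + 1 := ⟨l - 1, by omega⟩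
  obtain ⟨p, rfl⟩ : ∃ m, p = m + 1 := ⟨p - 1, by omega⟩
  simp only [Nat.add_sub_cancel]
  set E := Θ * X ^ l with hE
  have e1 : E * X = 0 := by rw [hE, mul_assoc, ← pow_succ, t1]
  have e2 : E * E = 0 := by rw [hE, ← mul_assoc, t3, zero_mul]
  have pw : ∀ t : ℝ, ∀ j, (X + t • E) ^ (j + 1) = X ^ (j + 1) + t • (X ^ j * E) := by
    intro t j
    induction j with
    | zero => simp
    | succ j ih =>
      rw [pow_succ, ih]
      simp only [mul_add, add_mul, smul_mul_assoc, mul_smul_comm, mul_assoc, e1, e2, ← pow_succ]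
      simp
  set T : ℕ → R := fun m => X ^ ((p + 1) * m + p) * Θ * X ^ (l - (p + 1) * m) with hT
  set H := -∑ m ∈ Finset.range a, X ^ ((p + 1) * m + p) * Θ * X ^ (l - (p + 1) * (m + 1)) with hH
  have z : ∀ j, H * (X ^ j * Θ) = 0 := fun j => by
    rw [hH, neg_mul, Finset.sum_mul, Finset.sum_eq_zero, neg_zero]
    intro m _
    rw [mul_assoc, ← mul_assoc (X ^ _) (X ^ j), ← pow_add, mul_assoc, ← mul_assoc Θ, t3, mul_zero]
  have hh : H * H = 0 := by
    nth_rewrite 2 [hH]
    rw [mul_neg, Finset.mul_sum, Finset.sum_eq_zero, neg_zero]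
    intro m _
    rw [← mul_assoc, z, zero_mul]
  have hg : H * (X ^ p * E) = 0 := by rw [hE, ← mul_assoc (X ^ p), ← mul_assoc, z, zero_mul]
  have cm : X ^ (p + 1) * H = H * X ^ (p + 1) + X ^ p * E := by
    have a1 : X ^ (p + 1) * H = -∑ m ∈ Finset.range a, T (m + 1) := by
      rw [hH, mul_neg, Finset.mul_sum]
      congr 2
      ext m
      simp only [hT, ← mul_assoc, ← pow_add]
      congr 3
      ring
    have a2 : H * X ^ (p + 1) = -∑ m ∈ Finset.range a, T m := by
      rw [hH, neg_mul, Finset.sum_mul]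
      congr 1
      refine Finset.sum_congr rfl fun m hm => ?_
      have := Nat.mul_le_mul_left (p + 1) (Nat.succ_le_of_lt (Finset.mem_range.1 hm))
      simp only [hT, mul_assoc, ← pow_add]
      congr 3
      simp only [Nat.succ_eq_add_one, mul_add, mul_one, mul_comm a] at this h1 ⊢
      omega
    have a3 : T a = 0 := by
      obtain ⟨d, hd⟩ : ∃ d, (p + 1) * a + p = d + k := ⟨(p + 1) * a + p - k, by
        simp only [add_mul, mul_add, mul_one, one_mul, mul_comm a] at h2 ⊢
        omega⟩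
      simp only [hT]
      rw [hd, pow_add, mul_assoc _ _ Θ, t2, mul_zero, zero_mul]
    have a4 := Finset.sum_range_sub T a
    rw [Finset.sum_sub_distrib, a3, zero_sub] at a4
    have a5 : T 0 = X ^ p * E := by simp [hT, hE, mul_assoc]
    rw [a1, a2, ← a5, sub_eq_iff_eq_add.1 a4]
    abel
  have u1 : ∀ t : ℝ, (1 + t • H) * (1 - t • H) = 1 := fun t => by
    simp only [mul_sub, add_mul, smul_mul_assoc, mul_smul_comm, hh]
    simp
  have u2 : ∀ t : ℝ, (1 - t • H) * (1 + t • H) = 1 := fun t => by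
    simp only [mul_add, sub_mul, smul_mul_assoc, mul_smul_comm, hh]
    simp
  refine ⟨by simpa using pw 1, 1 + H, 1 - H, by simpa using u1 1, by simpa using u2 1, ?_⟩
  refine JoinedIn.ofLine (f := fun t : ℝ => (1 + t • H) * (X + t • E) * (1 - t • H))
    (by fun_prop) (by simp) (by simp) ?_
  rintro _ ⟨t, -, rfl⟩
  have c := Units.conj_pow ⟨_, _, u1 t, u2 t⟩ (X + t • E) (p + 1)
  change _ = (1 + t • H) * _ * (1 - t • H) at c
  refine c.trans ?_
  have : (1 + t • H) * (X ^ (p + 1) + t • (X ^ p * E)) = X ^ (p + 1) * (1 + t • H) := by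
    simp only [mul_add, add_mul, smul_mul_assoc, mul_smul_comm, hg, cm, one_mul, mul_one]
    module
  rw [pw, this, mul_assoc, u1, mul_one]

end Pool.Agent.H.MP_6980f8_al
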