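import Pool.Agent.H.MP_6980f8_al.B

namespace Pool.Agent.H.MP_6980f8_al

open Set Module Submodule

variable {D V : Type*} [DivisionRing D] [AddCommGroup V] [Module D V] [Module.Finite D V]
  [Algebra ℝ D] [Module ℝ V] [IsScalarTower ℝ D V] [SMulCommClass D ℝ V]
  [TopologicalSpace (Module.End D V)] [IsTopologicalRing (Module.End D V)]
  [ContinuousSMul ℝ (Module.End D V)]

theorem move {X : Module.End D V} {r : ℕ → ℕ} {B : Basis (S r) D V} (h : JB X r B) {p a M : ℕ}
    (hp : 0 < p) (hM : X ^ M = 0) (ha : r (a * p + (p - 1)) + 1 < r (a * p)) :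
    ∃ Y, JoinedIn {Y | Y ^ p = X ^ p} X Y ∧
      ∑ j ∈ Finset.range M, finrank D (LinearMap.ker (Y ^ (j + 1))) <
        ∑ j ∈ Finset.range M, finrank D (LinearMap.ker (X ^ (j + 1))) := by
  classical
  set c := r (a * p + (p - 1)) with hc
  have col : ∀ d, c ≤ d → d < r (a * p) → ∃ k, a * p ≤ k ∧ k + 1 ≤ a * p + (p - 1) ∧
      d < r k ∧ r (k + 1) ≤ d := by
    intro d d1 d2
    have ex : ∃ j, r j ≤ d := ⟨_, d1⟩
    have k1 := Nat.find_spec ex
    have k2 : Nat.find ex ≤ a * p + (p - 1) := Nat.find_min' ex d1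
    have k3 : a * p < Nat.find ex := by
      by_contra k
      have := h.anti (not_lt.1 k)
      omega
    obtain ⟨k, hk⟩ : ∃ k, Nat.find ex = k + 1 := ⟨Nat.find ex - 1, by omega⟩
    exact ⟨k, by omega, by omega, not_le.1 (Nat.find_min ex (by omega)), hk ▸ k1⟩
  obtain ⟨k, k1, k2, k3, k4⟩ := col c le_rfl (by omega)
  obtain ⟨l, l1, l2, l3, l4⟩ := col (c + 1) (by omega) ha
  have lk : l ≤ k := by
    by_contra q
    have := h.anti (show k + 1 ≤ l by omega)
    omega
  have z1 : (0, c) ∈ S r := lt_of_lt_of_le k3 (h.anti (Nat.zero_le k))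
  have z2 : (0, c + 1) ∈ S r := lt_of_lt_of_le l3 (h.anti (Nat.zero_le l))
  set u := B ⟨(k, c), k3⟩ with hu
  set w := B ⟨(l, c + 1), l3⟩ with hw
  set g := B.coord ⟨(0, c + 1), z2⟩ with hg
  set g' := B.coord ⟨(0, c), z1⟩ with hg'
  have kill : ∀ j d hd, r j ≤ d → ∀ v, B.coord ⟨(0, d), hd⟩ ((X ^ j) v) = 0 := by
    intro j d hd hj v
    have : B.coord ⟨(0, d), hd⟩ ∘ₗ (X ^ j) = 0 := B.ext fun ⟨⟨i, b⟩, hq⟩ => by
      rw [LinearMap.comp_apply, h.coord, if_neg, LinearMap.zero_apply]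
      rintro ⟨rfl, rfl⟩
      exact absurd hq (not_lt.2 hj)
    exact LinearMap.congr_fun this v
  have u1 : (X ^ (k + 1)) u = 0 := (h.pow _ _ _ _).1 (by omega)
  have u2 : g' ((X ^ k) u) = 1 := by rw [hg', hu, h.coord, if_pos ⟨rfl, rfl⟩]
  have u3 : ∀ j, g ((X ^ j) u) = 0 := fun j => by rw [hg, hu, h.coord, if_neg (by omega)]
  have w1 : (X ^ (k + 1)) w = 0 := (h.pow _ _ _ _).1 (by omega)
  have w2 : g ((X ^ l) w) = 1 := by rw [hg, hw, h.coord, if_pos ⟨rfl, rfl⟩]
  obtain ⟨pw, φ, ψ, f1, f2, f3⟩ := move_ring (X := X) (Θ := g.smulRight u) (a := a) (k := k + 1)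
    (l := l + 1) hp (by omega) (by rw [add_mul]; omega)
    (LinearMap.ext fun v => by
      rw [Module.End.mul_apply, LinearMap.smulRight_apply, hg, kill _ _ _ l4, zero_smul,
        LinearMap.zero_apply])
    (LinearMap.ext fun v => by simp [u1]) (fun j => LinearMap.ext fun v => by simp [u3])
  rw [Nat.add_sub_cancel] at pw f3
  set Z := X + g.smulRight u * X ^ l with hZ
  have pz : ∀ j v, (Z ^ (j + 1)) v = (X ^ (j + 1)) v + g ((X ^ l) v) • (X ^ j) u := fun j v => by
    rw [pw]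
    simp
  have le : ∀ j, LinearMap.ker (Z ^ (j + 1)) ≤ LinearMap.ker (X ^ (j + 1)) := by
    intro j v hv
    rw [LinearMap.mem_ker] at hv ⊢
    rw [pz] at hv
    rcases le_or_gt j k with q | q
    · obtain ⟨d, rfl⟩ := Nat.exists_eq_add_of_le' q
      have := congrArg (fun y => g' ((X ^ d) y)) hv
      simp only [map_add, map_smul, map_zero, ← Module.End.mul_apply, ← pow_add, u2, ← add_assoc,
        smul_eq_mul, mul_one] at this
      rw [hg', kill _ _ _ k4, zero_add] at this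
      simpa [this] using hv
    · rwa [(h.pow _ _ _ _).1 q, smul_zero, add_zero] at hv
  have u0 : (X ^ k) u ≠ 0 := fun e => by simp [e] at u2
  have cj : ∀ j, finrank D (LinearMap.ker ((φ * Z * ψ) ^ j)) ≤
      finrank D (LinearMap.ker (Z ^ j)) := by
    intro j
    refine le_trans (Submodule.finrank_mono fun v hv => ?_) (Submodule.finrank_map_le φ _)
    have c := Units.conj_pow ⟨φ, ψ, f1, f2⟩ Z j
    change (φ * Z * ψ) ^ j = φ * _ * ψ at c
    rw [c, LinearMap.mem_ker] at hv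
    refine ⟨ψ v, ?_, by rw [← Module.End.mul_apply, f1, Module.End.one_apply]⟩
    have := congrArg ψ hv
    rwa [← Module.End.mul_apply, ← mul_assoc, ← mul_assoc, f2, one_mul, map_zero] at this
  refine ⟨_, f3, Finset.sum_lt_sum (fun j _ => (cj _).trans (Submodule.finrank_mono (le j)))
    ⟨k, Finset.mem_range.2 ?_, (cj _).trans_lt (Submodule.finrank_lt_finrank_of_lt
      (lt_of_le_of_ne (le k) fun e => ?_))⟩⟩
  · by_contra q
    rw [pow_eq_zero_of_le (not_lt.1 q) hM] at u0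
    exact u0 rfl
  · have : w ∈ LinearMap.ker (Z ^ (k + 1)) := e ▸ w1
    rw [LinearMap.mem_ker, pz, w1, w2, zero_add, one_smul] at this
    exact u0 this

theorem main (i : D) (hi : i * i = -1)
    (hinv : ∀ u : (Module.End D V)ˣ, ContinuousAt Ring.inverse (u : Module.End D V))
    {A : Module.End D V} (hA : IsNilpotent A) {p : ℕ} (hp : 0 < p) {X Y : Module.End D V}
    (hX : X ^ p = A) (hY : Y ^ p = A) : JoinedIn {Z | Z ^ p = A} X Y := by
  obtain ⟨m, hm⟩ := id hA
  have red : ∀ n, ∀ X : Module.End D V, X ^ p = A →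
      ∑ j ∈ Finset.range (p * m), finrank D (LinearMap.ker (X ^ (j + 1))) = n →
      ∃ X' r B, JoinedIn {Z | Z ^ p = A} X X' ∧ JB X' r B ∧
        ∀ a, r (a * p) ≤ r (a * p + (p - 1)) + 1 := by
    intro n
    induction n using Nat.strong_induction_on with
    | _ n ih =>
    intro X hX hn
    have hM : X ^ (p * m) = 0 := by rw [pow_mul, hX, hm]
    obtain ⟨r, B, h⟩ := exists_JB X ⟨_, hM⟩
    by_cases k : ∀ a, r (a * p) ≤ r (a * p + (p - 1)) + 1
    · exact ⟨X, r, B, JoinedIn.refl hX, h, k⟩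
    push Not at k
    obtain ⟨a, ha⟩ := k
    obtain ⟨Y, y1, y2⟩ := move h hp hM ha
    rw [hX] at y1
    obtain ⟨X', r', B', q1, q2⟩ := ih _ (hn ▸ y2) Y y1.target_mem rfl
    exact ⟨X', r', B', y1.trans q1, q2⟩
  obtain ⟨X', r, B, x1, x2, x3⟩ := red _ X hX rfl
  obtain ⟨Y', s, B', y1, y2, y3⟩ := red _ Y hY rfl
  have hX' : X' ^ p = A := x1.target_mem
  have hY' : Y' ^ p = A := y1.target_mem
  obtain rfl : r = s := canon_unique x2.anti y2.anti hp x3 y3 fun a => by
    have a1 := x2.sum (a * p) p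
    have a2 := y2.sum (a * p) p
    rw [← add_one_mul, mul_comm a, mul_comm (a + 1), pow_mul, pow_mul] at a1 a2
    rw [hX'] at a1
    rw [hY'] at a2
    simp only [mul_comm a]
    omega
  obtain ⟨g, g1, g2⟩ := x2.conj y2
  have g3 : Commute g A := by
    have := SemiconjBy.pow_right g2 p
    rwa [hX', hY'] at this
  obtain ⟨γ, hγ⟩ := conn_units i hi hA _ g rfl g1 g3
  refine (x1.trans (JoinedIn.symm ?_)).trans y1.symm
  refine ⟨⟨⟨fun t => γ t * X' * Ring.inverse (γ t), ?_⟩, ?_, ?_⟩, fun t => ?_⟩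
  · refine (γ.continuous.mul continuous_const).mul (continuous_iff_continuousAt.2 fun t => ?_)
    obtain ⟨u, hu⟩ := (hγ t).1
    exact ContinuousAt.comp (f := γ) (hu ▸ hinv u) γ.continuous.continuousAt
  · simp only [Path.source]
    rw [g2, Ring.mul_inverse_cancel_right _ _ g1]
  · simp
  · obtain ⟨u, hu⟩ := (hγ t).1
    have c := (hγ t).2
    change (γ t * X' * Ring.inverse (γ t)) ^ p = A
    rw [← hu] at c ⊢
    rw [Ring.inverse_unit, Units.conj_pow, hX', c.eq, Units.mul_inv_cancel_right]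

end Pool.Agent.H.MP_6980f8_al
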